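import Pool.Agent.H174R2.UD.Count

set_option autoImplicit false

/-! # The threshold for rigid subgraphs -/

namespace Pool.Agent.H174R2.UD

open Filter

/-- The least `k` such that every unit distance graph on `n` vertices with at least `k` edges
contains a rigid subgraph with at least three vertices. -/
noncomputable def rigidThreshold (n : ℕ) : ℕ :=
  sInf {k : ℕ | ∀ (G : SimpleGraph (Fin n)) (p : Fin n → Plane), Function.Injective p →
    (∀ a b, G.Adj a b → dist (p a) (p b) = 1) → k ≤ G.edgeSet.ncard →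
    ∃ H : G.Subgraph, IsRigidSubgraph p H ∧ 3 ≤ H.verts.ncard}

theorem lt_threshold {n : ℕ} {E : ℕ} (G : SimpleGraph (Fin n)) (p : Fin n → Plane)
    (hp : Function.Injective p) (hd : ∀ a b, G.Adj a b → dist (p a) (p b) = 1)
    (hE : E ≤ G.edgeSet.ncard)
    (hr : ∀ H : G.Subgraph, 3 ≤ H.verts.ncard → ¬ IsRigidSubgraph p H) :
    E < rigidThreshold n := by
  have hne : {k : ℕ | ∀ (G : SimpleGraph (Fin n)) (p : Fin n → Plane), Function.Injective p →
    (∀ a b, G.Adj a b → dist (p a) (p b) = 1) → k ≤ G.edgeSet.ncard →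
    ∃ H : G.Subgraph, IsRigidSubgraph p H ∧ 3 ≤ H.verts.ncard}.Nonempty := by
    refine ⟨Nat.card (Sym2 (Fin n)) + 1, fun G p _ _ h => ?_⟩
    have h1 : G.edgeSet.ncard ≤ Nat.card (Sym2 (Fin n)) := by
      rw [← Set.ncard_univ]
      exact Set.ncard_le_ncard (Set.subset_univ _) (Set.toFinite _)
    omega
  have hmem := Nat.sInf_mem hne
  by_contra hcon
  push Not at hcon
  obtain ⟨H, h1, h2⟩ := hmem G p hp hd (le_trans hcon hE)
  exact hr H h2 h1

theorem pow_bound {m : ℕ} {x c : ℝ} (hx : 0 ≤ x) (h : 2 * m * x ≤ c) :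
    (1 + x) ^ (2 * m) ≤ Real.exp c := by
  have h1 : (1 + x) ≤ Real.exp x := by
    have := Real.add_one_le_exp x
    linarith
  calc (1 + x) ^ (2 * m) ≤ (Real.exp x) ^ (2 * m) := pow_le_pow_left₀ (by linarith) h1 _
    _ = Real.exp ((2 * m : ℕ) * x) := by rw [← Real.exp_nat_mul]
    _ ≤ Real.exp c := by
      rw [Real.exp_le_exp]
      push_cast
      exact h

theorem exp_half_lt : Real.exp (1 / 2) < 2 := by
  have h1 := Real.exp_one_lt_d9
  have h2 : Real.exp (1 / 2) * Real.exp (1 / 2) = Real.exp 1 := by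
    rw [← Real.exp_add]; norm_num
  nlinarith [Real.exp_pos (1 / 2)]

theorem main_nat {m n : ℕ} (hm : 1 ≤ m) (hn : 4 * (8 * m * (m + 1) ^ m) ^ (2 * m) ≤ n) :
    2 ^ m * n ≤ 8 * rigidThreshold n := by
  set M := (m + 1) ^ m with hM
  have hM1 : 1 ≤ M := Nat.one_le_pow _ _ (by omega)
  set L := Nat.findGreatest (fun L => 4 * L ^ (2 * m) ≤ n) n with hL
  have h1 : 4 * L ^ (2 * m) ≤ n := by
    have := Nat.findGreatest_spec (P := fun L => 4 * L ^ (2 * m) ≤ n) (Nat.zero_le n) (by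
      rw [zero_pow (by omega)]; omega)
    exact this
  have hle : ∀ K, 4 * K ^ (2 * m) ≤ n → K ≤ L := by
    intro K hK
    refine Nat.le_findGreatest ?_ hK
    calc K ≤ K ^ (2 * m) := Nat.le_self_pow (by omega) K
      _ ≤ n := by omega
  have h2 : 8 * m * M ≤ L := hle _ hn
  have h3 : n < 4 * (L + 1) ^ (2 * m) := by
    by_contra hcon
    push Not at hcon
    have := hle (L + 1) hcon
    omega
  have hLpos : 0 < L := by
    have : 0 < 8 * m * M := by positivity
    omega
  have hLr : (0 : ℝ) < L := by exact_mod_cast hLpos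
  have h2r : (8 : ℝ) * m * M ≤ L := by exact_mod_cast h2
  have hMr : (1 : ℝ) ≤ M := by exact_mod_cast hM1
  have hmr : (1 : ℝ) ≤ m := by exact_mod_cast hm
  have key : ∀ y : ℝ, 0 ≤ y → y ≤ 2 * M → ((L : ℝ) + y) ^ (2 * m) ≤ 2 * (L : ℝ) ^ (2 * m) := by
    intro y hy0 hy
    have e1 : (L : ℝ) + y = L * (1 + y / L) := by field_simp
    have e2 : 2 * (m : ℝ) * (y / L) ≤ 1 / 2 := by
      rw [← mul_div_assoc, div_le_iff₀ hLr]
      nlinarith
    have e3 := pow_bound (x := y / L) (by positivity) e2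
    rw [e1, mul_pow]
    have e4 := exp_half_lt
    have e5 : (0 : ℝ) < (L : ℝ) ^ (2 * m) := by positivity
    nlinarith
  have h4 : (L + 2 * M) ^ (2 * m) ≤ 2 * L ^ (2 * m) := by
    have := key (2 * M) (by positivity) le_rfl
    exact_mod_cast this
  have h5 : (L + 1) ^ (2 * m) ≤ 2 * L ^ (2 * m) := by
    have := key 1 (by positivity) (by linarith)
    exact_mod_cast this
  obtain ⟨G, p, hp, hd, hE, hr⟩ := construct m L n hm (by rw [← hM]; omega)
  have h6 := lt_threshold G p hp hd hE hr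
  have h7 : n ≤ 8 * L ^ (2 * m) := by omega
  calc 2 ^ m * n ≤ 2 ^ m * (8 * L ^ (2 * m)) := Nat.mul_le_mul_left _ h7
    _ = 8 * (2 ^ m * L ^ (2 * m)) := by ring
    _ ≤ 8 * rigidThreshold n := Nat.mul_le_mul_left _ h6.le

theorem main_pow {m n : ℕ} (hm : 1 ≤ m) (hn : (m + 1) ^ (10 * m ^ 2) ≤ n) :
    2 ^ m * n ≤ 8 * rigidThreshold n := by
  refine main_nat hm (le_trans ?_ hn)
  have h1 : 8 * m ≤ (m + 1) ^ 3 := by
    obtain ⟨k, rfl⟩ := Nat.exists_eq_add_of_le hm
    ring_nf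
    nlinarith [Nat.zero_le k, Nat.zero_le (k ^ 2), Nat.zero_le (k ^ 3)]
  have h2 : 8 * m * (m + 1) ^ m ≤ (m + 1) ^ (m + 3) := by
    rw [pow_add, mul_comm ((m + 1) ^ m)]
    exact Nat.mul_le_mul_right _ h1
  have h3 : 4 ≤ (m + 1) ^ 2 := by nlinarith
  calc 4 * (8 * m * (m + 1) ^ m) ^ (2 * m)
      ≤ (m + 1) ^ 2 * ((m + 1) ^ (m + 3)) ^ (2 * m) :=
        Nat.mul_le_mul h3 (Nat.pow_le_pow_left h2 _)
    _ = (m + 1) ^ (2 + (m + 3) * (2 * m)) := by rw [← pow_mul, ← pow_add]
    _ ≤ (m + 1) ^ (10 * m ^ 2) := by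
      refine Nat.pow_le_pow_right (by omega) ?_
      nlinarith

theorem main_asym : ∀ᶠ n : ℕ in atTop,
    (n : ℝ) * Real.exp (1 / 10 * Real.sqrt (Real.log n / Real.log (Real.log n))) ≤
      rigidThreshold n := by
  have hev : ∀ᶠ n : ℕ in atTop, (10 : ℝ) ^ 6 ≤ Real.log n :=
    (Real.tendsto_log_atTop.comp tendsto_natCast_atTop_atTop).eventually_ge_atTop _
  filter_upwards [hev] with n hx
  set x := Real.log n with hxdef
  set y := Real.log x with hydef
  set s := Real.sqrt (x / y) with hs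
  have hx0 : 0 < x := by linarith [show (0:ℝ) < 10 ^ 6 by norm_num]
  have hsq : 1000 ≤ Real.sqrt x := by
    rw [Real.le_sqrt' (by norm_num)]
    calc (1000 : ℝ) ^ 2 = 10 ^ 6 := by norm_num
      _ ≤ x := hx
  have hsqx : Real.sqrt x * Real.sqrt x = x := Real.mul_self_sqrt hx0.le
  have hy2 : y ≤ 2 * Real.sqrt x := by
    have h1 : y = 2 * Real.log (Real.sqrt x) := by
      rw [hydef, Real.log_sqrt hx0.le]; ring
    have h2 := Real.log_le_sub_one_of_pos (show 0 < Real.sqrt x by linarith)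
    linarith
  have hy1 : 1 ≤ y := by
    rw [hydef, Real.le_log_iff_exp_le hx0]
    have := Real.exp_one_lt_d9
    linarith
  have hy0 : 0 < y := by linarith
  have hs0 : 0 ≤ s := Real.sqrt_nonneg _
  have hss : s * s = x / y := Real.mul_self_sqrt (by positivity)
  have hs22 : 22 ≤ s := by
    rw [hs, Real.le_sqrt' (by norm_num), le_div_iff₀ hy0]
    nlinarith
  have hsx : s ≤ Real.sqrt x := by
    rw [hs]
    apply Real.sqrt_le_sqrt
    rw [div_le_iff₀ hy0]
    nlinarith
  set m := ⌊s / 3⌋₊ with hm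
  have hm1 : (m : ℝ) ≤ s / 3 := Nat.floor_le (by linarith)
  have hm2 : s / 3 - 1 < m := Nat.sub_one_lt_floor _
  have hm3 : 1 ≤ m := by
    have : (0 : ℝ) < m := by linarith
    exact_mod_cast this
  have hn0 : (0 : ℝ) < n := by
    by_contra hcon
    push Not at hcon
    have h1 : (n : ℝ) = 0 := le_antisymm hcon (Nat.cast_nonneg n)
    rw [hxdef, h1, Real.log_zero] at hx0
    exact lt_irrefl _ hx0
  have hpow : (m + 1) ^ (10 * m ^ 2) ≤ n := by
    have h1 : (((m + 1) ^ (10 * m ^ 2) : ℕ) : ℝ) ≤ n := by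
      rw [← Real.log_le_log_iff (by positivity) hn0]
      push_cast
      rw [Real.log_pow, ← hxdef]
      have h2 : (m : ℝ) + 1 ≤ Real.sqrt x := by linarith
      have h3 : Real.log ((m : ℝ) + 1) ≤ y / 2 := by
        calc Real.log ((m : ℝ) + 1) ≤ Real.log (Real.sqrt x) :=
              Real.log_le_log (by positivity) h2
          _ = y / 2 := by rw [Real.log_sqrt hx0.le]
      have h4 : (m : ℝ) ^ 2 ≤ x / y / 9 := by
        rw [← hss]
        nlinarith
      have h5 : 0 ≤ Real.log ((m : ℝ) + 1) := Real.log_nonneg (by linarith [Nat.cast_nonneg (α := ℝ) m])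
      push_cast
      calc 10 * (m : ℝ) ^ 2 * Real.log ((m : ℝ) + 1)
          ≤ 10 * (x / y / 9) * (y / 2) := by
            refine mul_le_mul ?_ h3 h5 (by positivity)
            linarith
        _ = 10 * x / 18 := by field_simp; norm_num
        _ ≤ x := by linarith
    exact_mod_cast h1
  have hmain := main_pow hm3 hpow
  have hmainr : (2 : ℝ) ^ m * n ≤ 8 * rigidThreshold n := by exact_mod_cast hmain
  have hlog2 := Real.log_two_gt_d9
  have hlog2' := Real.log_two_lt_d9
  have hexp : 8 * Real.exp (1 / 10 * s) ≤ (2 : ℝ) ^ m := by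
    have h1 : (2 : ℝ) ^ m = Real.exp (m * Real.log 2) := by
      rw [mul_comm, ← Real.rpow_natCast, Real.rpow_def_of_pos (by norm_num)]
    have h2 : (8 : ℝ) = Real.exp (3 * Real.log 2) := by
      have : Real.exp (3 * Real.log 2) = (Real.exp (Real.log 2)) ^ 3 := by
        rw [← Real.exp_nat_mul]; norm_num
      rw [this, Real.exp_log (by norm_num)]
      norm_num
    rw [h1, h2, ← Real.exp_add, Real.exp_le_exp]
    nlinarith
  have h8 : (n : ℝ) * (8 * Real.exp (1 / 10 * s)) ≤ 8 * rigidThreshold n := by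
    calc (n : ℝ) * (8 * Real.exp (1 / 10 * s)) ≤ n * 2 ^ m :=
          mul_le_mul_of_nonneg_left hexp hn0.le
      _ = 2 ^ m * n := mul_comm _ _
      _ ≤ 8 * rigidThreshold n := hmainr
  linarith

end Pool.Agent.H174R2.UD
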