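import Pool.Agent.H174R2.UD.Flex

set_option autoImplicit false

/-! # The number of vertices and edges -/

namespace Pool.Agent.H174R2.UD

open Polynomial Complex

/-- The polynomial of degree `< m` with the given Gaussian integer coefficients. -/
noncomputable def emb (m : ℕ) (c : Fin m → ℤ × ℤ) : ℂ[X] :=
  ∑ j : Fin m, C (((c j).1 : ℂ) + ((c j).2 : ℂ) * I) * X ^ (j : ℕ)

theorem coeff_emb_lt {m : ℕ} (c : Fin m → ℤ × ℤ) (j : Fin m) :
    (emb m c).coeff (j : ℕ) = ((c j).1 : ℂ) + ((c j).2 : ℂ) * I := by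
  unfold emb
  rw [finsetSum_coeff, Finset.sum_eq_single j]
  · rw [coeff_C_mul, coeff_X_pow, if_pos rfl, mul_one]
  · intro b _ hb
    rw [coeff_C_mul, coeff_X_pow, if_neg, mul_zero]
    intro h
    exact hb (Fin.ext h).symm
  · intro h
    exact absurd (Finset.mem_univ j) h

theorem coeff_emb_ge {m : ℕ} (c : Fin m → ℤ × ℤ) {k : ℕ} (hk : m ≤ k) :
    (emb m c).coeff k = 0 := by
  unfold emb
  rw [finsetSum_coeff]
  refine Finset.sum_eq_zero fun j _ => ?_
  rw [coeff_C_mul, coeff_X_pow, if_neg, mul_zero]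
  have := j.2
  omega

theorem gauss_inj {a b c d : ℤ} (h : (a : ℂ) + (b : ℂ) * I = (c : ℂ) + (d : ℂ) * I) :
    a = c ∧ b = d := by
  have h1 := congrArg Complex.re h
  have h2 := congrArg Complex.im h
  simp at h1 h2
  exact ⟨by exact_mod_cast h1, by exact_mod_cast h2⟩

theorem emb_injective (m : ℕ) : Function.Injective (emb m) := by
  intro c d h
  ext j
  · have h1 := congrArg (fun f => coeff f (j : ℕ)) h
    simp only [coeff_emb_lt] at h1
    exact (gauss_inj h1).1
  · have h1 := congrArg (fun f => coeff f (j : ℕ)) h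
    simp only [coeff_emb_lt] at h1
    exact (gauss_inj h1).2

/-- The unit vectors have small Gaussian integer coordinates. -/
theorem exists_coord (m : ℕ) (S : Finset (Fin m)) : ∃ g : Fin m → ℤ × ℤ,
    NP m S = X ^ m + emb m g ∧ ∀ j, |(g j).1| ≤ ((m + 1) ^ m : ℕ) ∧ |(g j).2| ≤ ((m + 1) ^ m : ℕ) := by
  have h := gint_NP m S
  choose u v h1 h2 h3 using h
  refine ⟨fun j => (u j, v j), ?_, fun j => ⟨h2 j, h3 j⟩⟩
  ext k
  rw [coeff_add, coeff_X_pow]
  rcases lt_trichotomy k m with hk | hk | hk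
  · have := coeff_emb_lt (fun j : Fin m => (u j, v j)) ⟨k, hk⟩
    simp only at this
    rw [this, if_neg hk.ne, zero_add, h1 k]
  · rw [if_pos hk, coeff_emb_ge _ hk.ge, add_zero, hk]
    have h4 := monic_NP m S
    unfold Polynomial.Monic Polynomial.leadingCoeff at h4
    rw [natDegree_NP] at h4
    exact h4
  · rw [if_neg hk.ne', coeff_emb_ge _ hk.le, add_zero]
    exact coeff_eq_zero_of_natDegree_lt (by rw [natDegree_NP]; exact hk)

/-- The vertices. -/
abbrev Vtx (m L M r : ℕ) : Type :=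
  (Fin m → Fin L × Fin L) ⊕ ((Fin m → Fin (L + 2 * M) × Fin (L + 2 * M)) ⊕ Fin r)

/-- The polynomials of the vertices. -/
noncomputable def vp (m L M r : ℕ) : Vtx m L M r → ℂ[X]
  | Sum.inl c => emb m fun j => (((c j).1 : ℕ), ((c j).2 : ℕ))
  | Sum.inr (Sum.inl c) => X ^ m + emb m fun j => ((((c j).1 : ℕ) : ℤ) - M, (((c j).2 : ℕ) : ℤ) - M)
  | Sum.inr (Sum.inr k) => X ^ (m + 1) + C ((k : ℕ) : ℂ)

theorem vp_injective (m L M r : ℕ) (hm : 1 ≤ m) : Function.Injective (vp m L M r) := by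
  have hc1 : ∀ c, (vp m L M r (Sum.inl c)).coeff m = 0 := fun c => coeff_emb_ge _ le_rfl
  have hc2 : ∀ c, (vp m L M r (Sum.inl c)).coeff (m + 1) = 0 := fun c =>
    coeff_emb_ge _ (Nat.le_succ m)
  have hd1 : ∀ c, (vp m L M r (Sum.inr (Sum.inl c))).coeff m = 1 := fun c => by
    change (X ^ m + emb m _ : ℂ[X]).coeff m = 1
    rw [coeff_add, coeff_X_pow, if_pos rfl, coeff_emb_ge _ le_rfl, add_zero]
  have hd2 : ∀ c, (vp m L M r (Sum.inr (Sum.inl c))).coeff (m + 1) = 0 := fun c => by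
    change (X ^ m + emb m _ : ℂ[X]).coeff (m + 1) = 0
    rw [coeff_add, coeff_X_pow, if_neg (by omega), coeff_emb_ge _ (Nat.le_succ m), add_zero]
  have he2 : ∀ k, (vp m L M r (Sum.inr (Sum.inr k))).coeff (m + 1) = 1 := fun k => by
    change (X ^ (m + 1) + C _ : ℂ[X]).coeff (m + 1) = 1
    rw [coeff_add, coeff_X_pow, if_pos rfl, coeff_C, if_neg (by omega), add_zero]
  rintro (c | c | k) (d | d | l) h
  · congr 1
    have h1 := emb_injective m h
    ext j
    · have := congrArg Prod.fst (congrFun h1 j)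
      simp only at this
      exact_mod_cast this
    · have := congrArg Prod.snd (congrFun h1 j)
      simp only at this
      exact_mod_cast this
  · have := hc1 c
    rw [h, hd1] at this
    exact absurd this one_ne_zero
  · have := hc2 c
    rw [h, he2] at this
    exact absurd this one_ne_zero
  · have := hc1 d
    rw [← h, hd1] at this
    exact absurd this one_ne_zero
  · congr 2
    have h0 : (X ^ m + emb m (fun j => ((((c j).1 : ℕ) : ℤ) - M, (((c j).2 : ℕ) : ℤ) - M)) : ℂ[X]) =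
      X ^ m + emb m (fun j => ((((d j).1 : ℕ) : ℤ) - M, (((d j).2 : ℕ) : ℤ) - M)) := h
    have h1 := emb_injective m (add_left_cancel h0)
    ext j
    · have := congrArg Prod.fst (congrFun h1 j)
      simp only at this
      omega
    · have := congrArg Prod.snd (congrFun h1 j)
      simp only at this
      omega
  · have := hd2 c
    rw [h, he2] at this
    exact absurd this one_ne_zero
  · have := hc2 d
    rw [← h, he2] at this
    exact absurd this one_ne_zero
  · have := hd2 d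
    rw [← h, he2] at this
    exact absurd this one_ne_zero
  · congr 2
    have h0 : (X ^ (m + 1) + C ((k : ℕ) : ℂ) : ℂ[X]) = X ^ (m + 1) + C ((l : ℕ) : ℂ) := h
    have h1 := C_injective (add_left_cancel h0)
    exact Fin.ext (by exact_mod_cast h1)

theorem card_vtx (m L M r : ℕ) :
    Fintype.card (Vtx m L M r) = L ^ (2 * m) + ((L + 2 * M) ^ (2 * m) + r) := by
  simp only [Vtx, Fintype.card_sum, Fintype.card_pi, Fintype.card_prod, Fintype.card_fin,
    Finset.prod_const, Finset.card_univ]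
  rw [← pow_two, ← pow_mul, ← pow_two, ← pow_mul]

/-- The first part of the vertices. -/
def prt (m L M r : ℕ) : Set (Vtx m L M r) := Set.range Sum.inl

theorem edge_count (m L r : ℕ) :
    2 ^ m * L ^ (2 * m) ≤
      (gr m (vp m L ((m + 1) ^ m) r) (prt m L ((m + 1) ^ m) r)).edgeSet.ncard := by
  classical
  set M := (m + 1) ^ m with hM
  set G := gr m (vp m L M r) (prt m L M r) with hG
  choose g hg1 hg2 using exists_coord m
  have hb : ∀ (c : Fin m → Fin L × Fin L) (S : Finset (Fin m)) (j : Fin m),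
      (0 ≤ (((c j).1 : ℕ) : ℤ) + (g S j).1 + M ∧ (((c j).1 : ℕ) : ℤ) + (g S j).1 + M < L + 2 * M) ∧
      (0 ≤ (((c j).2 : ℕ) : ℤ) + (g S j).2 + M ∧ (((c j).2 : ℕ) : ℤ) + (g S j).2 + M < L + 2 * M) := by
    intro c S j
    obtain ⟨h1, h2⟩ := hg2 S j
    rw [abs_le] at h1 h2
    have h3 := (c j).1.2
    have h4 := (c j).2.2
    rw [← hM] at h1 h2
    omega
  let tgt : (Fin m → Fin L × Fin L) → Finset (Fin m) → Vtx m L M r := fun c S =>
    Sum.inr (Sum.inl fun j =>
      (⟨((((c j).1 : ℕ) : ℤ) + (g S j).1 + M).toNat, by have := (hb c S j).1; omega⟩,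
        ⟨((((c j).2 : ℕ) : ℤ) + (g S j).2 + M).toNat, by have := (hb c S j).2; omega⟩))
  have htgt : ∀ c S, vp m L M r (tgt c S) = vp m L M r (Sum.inl c) + NP m S := by
    intro c S
    rw [hg1 S]
    change (X ^ m + emb m _ : ℂ[X]) = emb m _ + (X ^ m + emb m (g S))
    have : ∀ a b c : ℂ[X], b + (a + c) = a + (b + c) := fun a b c => by ring
    rw [this]
    congr 1
    unfold emb
    rw [← Finset.sum_add_distrib]
    refine Finset.sum_congr rfl fun j _ => ?_
    rw [← add_mul, ← C_add]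
    congr 2
    have e1 : ((((((c j).1 : ℕ) : ℤ) + (g S j).1 + M).toNat : ℕ) : ℤ) =
        (((c j).1 : ℕ) : ℤ) + (g S j).1 + M := Int.toNat_of_nonneg (hb c S j).1.1
    have e2 : ((((((c j).2 : ℕ) : ℤ) + (g S j).2 + M).toNat : ℕ) : ℤ) =
        (((c j).2 : ℕ) : ℤ) + (g S j).2 + M := Int.toNat_of_nonneg (hb c S j).2.1
    simp only [e1, e2]
    push_cast
    ring
  have hadj : ∀ c S, G.Adj (Sum.inl c) (tgt c S) := by
    intro c S
    left
    exact ⟨⟨c, rfl⟩, fun ⟨d, hd⟩ => by simp [tgt] at hd, S, htgt c S⟩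
  let F : (Fin m → Fin L × Fin L) × Finset (Fin m) → G.edgeSet := fun cS =>
    ⟨s(Sum.inl cS.1, tgt cS.1 cS.2), hadj cS.1 cS.2⟩
  have hF : Function.Injective F := by
    rintro ⟨c, S⟩ ⟨d, T⟩ h
    have h1 : s((Sum.inl c : Vtx m L M r), tgt c S) = s(Sum.inl d, tgt d T) :=
      congrArg Subtype.val h
    rw [Sym2.eq_iff] at h1
    rcases h1 with ⟨h1, h2⟩ | ⟨h1, -⟩
    · have h3 : c = d := Sum.inl_injective h1
      subst h3
      have h4 := congrArg (vp m L M r) h2
      rw [htgt, htgt] at h4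
      rw [NP_injective m (add_left_cancel h4)]
    · simp [tgt] at h1
  have h1 := Nat.card_le_card_of_injective F hF
  rw [Nat.card_eq_fintype_card, Fintype.card_prod, Fintype.card_pi, Finset.prod_const,
    Finset.card_univ, Fintype.card_prod, Fintype.card_fin, Fintype.card_finset, Fintype.card_fin,
    ← pow_two, ← pow_mul] at h1
  rw [mul_comm]
  exact h1

/-- The construction on the vertex set `Fin n`. -/
theorem construct (m L n : ℕ) (hm : 1 ≤ m)
    (hn : L ^ (2 * m) + (L + 2 * (m + 1) ^ m) ^ (2 * m) ≤ n) :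
    ∃ (G : SimpleGraph (Fin n)) (p : Fin n → Plane), Function.Injective p ∧
      (∀ a b, G.Adj a b → dist (p a) (p b) = 1) ∧ 2 ^ m * L ^ (2 * m) ≤ G.edgeSet.ncard ∧
      ∀ H : G.Subgraph, 3 ≤ H.verts.ncard → ¬ IsRigidSubgraph p H := by
  classical
  obtain ⟨r, hr⟩ := Nat.exists_eq_add_of_le hn
  set M := (m + 1) ^ m with hM
  have hcard : Fintype.card (Vtx m L M r) = n := by
    rw [card_vtx]; omega
  let e : Fin n ≃ Vtx m L M r := (Fintype.equivFinOfCardEq hcard).symm
  let x : Fin n → ℂ[X] := fun a => vp m L M r (e a)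
  have hx : Function.Injective x := (vp_injective m L M r hm).comp e.injective
  let A : Set (Fin n) := e ⁻¹' prt m L M r
  obtain ⟨p, hp1, hp2, hp3⟩ := flex m hx A
  refine ⟨gr m x A, p, hp1, hp2, ?_, hp3⟩
  have hiso : ∀ a b, (gr m x A).Adj a b ↔ (gr m (vp m L M r) (prt m L M r)).Adj (e a) (e b) :=
    fun a b => Iff.rfl
  let φ : gr m x A ≃g gr m (vp m L M r) (prt m L M r) :=
    { toEquiv := e, map_rel_iff' := by intro a b; exact (hiso a b).symm }
  have h1 : (gr m x A).edgeSet.ncard = (gr m (vp m L M r) (prt m L M r)).edgeSet.ncard := by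
    exact Nat.card_congr φ.mapEdgeSet
  rw [h1]
  exact edge_count m L r

end Pool.Agent.H174R2.UD
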