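import Pool.Agent.H174R2.UD.Poly

set_option autoImplicit false

/-! # Flexible unit distance graphs from one-parameter families -/

namespace Pool.Agent.H174R2.UD

open Polynomial Complex

/-- The plane. -/
abbrev Plane : Type := EuclideanSpace ℝ (Fin 2)

/-- The subgraph `H` of `G`, placed at the points `p`, is rigid: every continuous motion of its
vertices which starts at `p` and keeps the length of each edge of `H` constant also keeps the
distance between every pair of vertices of `H` constant. -/
def IsRigidSubgraph {ι : Type*} {G : SimpleGraph ι} (p : ι → Plane) (H : G.Subgraph) : Prop :=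
  ∀ γ : unitInterval → H.verts → Plane, Continuous γ → (∀ a, γ 0 a = p a) →
    (∀ s, ∀ a b : H.verts, H.Adj a b → dist (γ s a) (γ s b) = dist (p a) (p b)) →
    ∀ s, ∀ a b : H.verts, dist (γ s a) (γ s b) = dist (p a) (p b)

/-- The identification of `ℂ` with the plane. -/
noncomputable def toPlane : ℂ ≃ₗᵢ[ℝ] Plane := Complex.orthonormalBasisOneI.repr

theorem dist_toPlane (z w : ℂ) : dist (toPlane z) (toPlane w) = ‖z - w‖ := by
  rw [LinearIsometryEquiv.dist_map, Complex.dist_eq]

/-- The position of the vertex with polynomial `f` at time `t`. -/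
noncomputable def pos (m : ℕ) (f : ℂ[X]) (t : ℝ) : ℂ :=
  f.eval (t : ℂ) / (NP m ∅).eval (t : ℂ)

theorem continuous_pos (m : ℕ) (f : ℂ[X]) : Continuous (pos m f) := by
  unfold pos
  refine Continuous.div ?_ ?_ (eval_NP_ne m ∅)
  · exact f.continuous.comp Complex.continuous_ofReal
  · exact (NP m ∅).continuous.comp Complex.continuous_ofReal

theorem pos_sub (m : ℕ) (f g : ℂ[X]) (t : ℝ) :
    pos m f t - pos m g t = (f - g).eval (t : ℂ) / (NP m ∅).eval (t : ℂ) := by
  unfold pos
  rw [eval_sub, sub_div]

theorem norm_unit (m : ℕ) (S : Finset (Fin m)) (t : ℝ) :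
    ‖(NP m S).eval (t : ℂ) / (NP m ∅).eval (t : ℂ)‖ = 1 := by
  rw [norm_div, norm_eval_NP, div_self]
  rw [norm_ne_zero_iff]
  exact eval_NP_ne m ∅ t

/-- The graph on `ι` given by the polynomials `x`. -/
def gr {ι : Type*} (m : ℕ) (x : ι → ℂ[X]) (A : Set ι) : SimpleGraph ι where
  Adj a b := (a ∈ A ∧ b ∉ A ∧ ∃ S, x b = x a + NP m S) ∨ (b ∈ A ∧ a ∉ A ∧ ∃ S, x a = x b + NP m S)
  symm := ⟨fun _ _ h => h.symm⟩
  loopless := ⟨by
    rintro a (⟨h1, h2, -⟩ | ⟨h1, h2, -⟩)
    · exact h2 h1
    · exact h2 h1⟩

theorem gr_dist {ι : Type*} {m : ℕ} {x : ι → ℂ[X]} {A : Set ι} {a b : ι}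
    (h : (gr m x A).Adj a b) (t : ℝ) : ‖pos m (x a) t - pos m (x b) t‖ = 1 := by
  rcases h with ⟨-, -, S, hS⟩ | ⟨-, -, S, hS⟩
  · rw [norm_sub_rev, pos_sub]
    have : x b - x a = NP m S := by rw [hS]; ring
    rw [this, norm_unit]
  · rw [pos_sub]
    have : x a - x b = NP m S := by rw [hS]; ring
    rw [this, norm_unit]

/-- The distance of two neighbours of a vertex is not constant on an infinite set. -/
theorem nbr_const {ι : Type*} {m : ℕ} {x : ι → ℂ[X]} (hx : Function.Injective x) {A : Set ι}
    {a b c : ι} (hab : (gr m x A).Adj a b) (hac : (gr m x A).Adj a c) (hbc : b ≠ c) (d : ℝ) :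
    {t : ℝ | ‖pos m (x b) t - pos m (x c) t‖ = d}.Finite := by
  have key : ∀ S T : Finset (Fin m), S ≠ T →
      {t : ℝ | ‖(NP m S - NP m T).eval (t : ℂ) / (NP m ∅).eval (t : ℂ)‖ = d}.Finite := by
    intro S T hST
    refine (finite_const hST (d ^ 2)).subset ?_
    intro t ht
    have h1 : ‖(NP m S - NP m T).eval (t : ℂ) / (NP m ∅).eval (t : ℂ)‖ = d := ht
    have h2 : ‖(NP m ∅).eval (t : ℂ)‖ ≠ 0 := by
      rw [norm_ne_zero_iff]; exact eval_NP_ne m ∅ t
    change ‖(NP m S).eval (t : ℂ) - (NP m T).eval (t : ℂ)‖ ^ 2 =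
      d ^ 2 * ‖(NP m ∅).eval (t : ℂ)‖ ^ 2
    rw [norm_div, eval_sub] at h1
    rw [← h1]
    field_simp
  rcases hab with ⟨h1, -, S, hS⟩ | ⟨-, h1, S, hS⟩
  · rcases hac with ⟨-, -, T, hT⟩ | ⟨-, h2, -⟩
    · have hne : S ≠ T := by
        rintro rfl
        exact hbc (hx (by rw [hS, hT]))
      refine (key S T hne).subset ?_
      intro t ht
      have h3 : ‖pos m (x b) t - pos m (x c) t‖ = d := ht
      rw [pos_sub] at h3
      have : x b - x c = NP m S - NP m T := by rw [hS, hT]; ring
      rw [this] at h3
      exact h3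
    · exact absurd h1 h2
  · rcases hac with ⟨h2, -⟩ | ⟨-, -, T, hT⟩
    · exact absurd h2 h1
    · have hne : S ≠ T := by
        rintro rfl
        apply hbc
        apply hx
        have : x b + NP m S = x c + NP m S := by rw [← hS, ← hT]
        exact add_right_cancel this
      refine (key T S hne.symm).subset ?_
      intro t ht
      have h3 : ‖pos m (x b) t - pos m (x c) t‖ = d := ht
      rw [pos_sub] at h3
      have : x b - x c = NP m T - NP m S := by
        have e1 : x b = x a - NP m S := by rw [hS]; ring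
        have e2 : x c = x a - NP m T := by rw [hT]; ring
        rw [e1, e2]; ring
      rw [this] at h3
      exact h3

theorem exists_time {ι : Type*} [Finite ι] (m : ℕ) {x : ι → ℂ[X]} (hx : Function.Injective x) :
    ∃ t : ℝ, Function.Injective fun a => pos m (x a) t := by
  have hfin : (⋃ ab ∈ {ab : ι × ι | ab.1 ≠ ab.2},
      {t : ℝ | (x ab.1 - x ab.2).IsRoot (t : ℂ)}).Finite := by
    refine Set.Finite.biUnion (Set.toFinite _) ?_
    rintro ⟨a, b⟩ hab
    have h0 : x a - x b ≠ 0 := fun h => hab (hx (sub_eq_zero.1 h))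
    have h1 : {z : ℂ | (x a - x b).IsRoot z}.Finite := Polynomial.finite_setOfPred_isRoot h0
    exact h1.preimage (f := fun t : ℝ => (t : ℂ)) Complex.ofReal_injective.injOn
  obtain ⟨t, ht⟩ := hfin.exists_notMem
  refine ⟨t, fun a b hab => ?_⟩
  by_contra hne
  apply ht
  rw [Set.mem_iUnion₂]
  refine ⟨(a, b), hne, ?_⟩
  have h1 : pos m (x a) t - pos m (x b) t = 0 := sub_eq_zero.2 hab
  rw [pos_sub, div_eq_zero_iff] at h1
  exact h1.resolve_right (eval_NP_ne m ∅ t)

theorem flex {ι : Type*} [Finite ι] (m : ℕ) {x : ι → ℂ[X]} (hx : Function.Injective x)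
    (A : Set ι) : ∃ p : ι → Plane, Function.Injective p ∧
      (∀ a b, (gr m x A).Adj a b → dist (p a) (p b) = 1) ∧
      ∀ H : (gr m x A).Subgraph, 3 ≤ H.verts.ncard → ¬ IsRigidSubgraph p H := by
  obtain ⟨t, ht⟩ := exists_time m hx
  refine ⟨fun a => toPlane (pos m (x a) t), ?_, ?_, ?_⟩
  · exact toPlane.injective.comp ht
  · intro a b hab
    rw [dist_toPlane]
    exact gr_dist hab t
  · intro H hcard hrig
    by_cases hcase : ∃ a b c : H.verts, H.Adj a b ∧ H.Adj a c ∧ b ≠ c
    · obtain ⟨a, b, c, hab, hac, hbc⟩ := hcase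
      have hab' : (gr m x A).Adj a b := H.adj_sub hab
      have hac' : (gr m x A).Adj a c := H.adj_sub hac
      have hbc' : (b : ι) ≠ c := fun h => hbc (Subtype.ext h)
      have h1 := hrig (fun s u => toPlane (pos m (x u) (t + s))) (by
        refine continuous_pi fun u => ?_
        refine toPlane.continuous.comp ((continuous_pos m (x u)).comp ?_)
        fun_prop) (by intro u; simp) (by
        intro s u v huv
        rw [dist_toPlane, dist_toPlane, gr_dist (H.adj_sub huv), gr_dist (H.adj_sub huv)])
      have h2 := nbr_const hx hab' hac' hbc' (dist (toPlane (pos m (x b) t)) (toPlane (pos m (x c) t)))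
      refine (Set.Icc_infinite (show t < t + 1 by linarith)) (h2.subset ?_)
      intro s hs
      have h3 := h1 ⟨s - t, by linarith [hs.1], by linarith [hs.2]⟩ b c
      rw [dist_toPlane] at h3
      have h4 : t + (s - t) = s := by ring
      simp only [h4] at h3
      exact h3
    · push Not at hcase
      -- the component of a vertex
      have hne : H.verts.Nonempty := by
        rw [← Set.ncard_pos (Set.toFinite _)]; omega
      obtain ⟨a, ha⟩ := hne
      have hex : ∃ w : H.verts, w ≠ ⟨a, ha⟩ ∧ ¬ H.Adj a w := by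
        by_contra hcon
        push Not at hcon
        -- two other vertices
        have h5 : 1 < (H.verts \ {a}).ncard := by
          have := Set.ncard_sdiff_singleton_add_one ha (Set.toFinite _)
          omega
        obtain ⟨b, hb, c, hc, hbc⟩ := (Set.one_lt_ncard (Set.toFinite _)).1 h5
        refine hbc (congrArg Subtype.val (hcase ⟨a, ha⟩ ⟨b, hb.1⟩ ⟨c, hc.1⟩
          (hcon ⟨b, hb.1⟩ ?_) (hcon ⟨c, hc.1⟩ ?_)))
        · intro h; exact hb.2 (congrArg Subtype.val h)
        · intro h; exact hc.2 (congrArg Subtype.val h)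
      obtain ⟨w, hwa, hwn⟩ := hex
      classical
      set e : Plane := toPlane (pos m (x a) t) - toPlane (pos m (x w) t) with he
      have he0 : e ≠ 0 := by
        rw [he, sub_ne_zero]
        intro h
        exact hwa (Subtype.ext (ht (toPlane.injective h)).symm)
      let K : Set H.verts := {u | (u : ι) = a ∨ H.Adj a u}
      have hK : ∀ u v : H.verts, H.Adj u v → u ∈ K → v ∈ K := by
        rintro u v huv (hu | hu)
        · right; rw [← hu]; exact huv
        · left
          have := hcase u v ⟨a, ha⟩ huv hu.symm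
          exact congrArg Subtype.val this
      have h1 := hrig (fun s u => toPlane (pos m (x u) t) + if u ∈ K then (s : ℝ) • e else 0) (by
        refine continuous_pi fun u => ?_
        by_cases hu : u ∈ K
        · simp only [if_pos hu]
          fun_prop
        · simp only [if_neg hu]
          fun_prop) (by
        intro u
        by_cases hu : u ∈ K
        · simp
        · simp) (by
        intro s u v huv
        by_cases hu : u ∈ K
        · rw [if_pos hu, if_pos (hK u v huv hu), dist_add_right]
        · have hv : v ∉ K := fun hv => hu (hK v u huv.symm hv)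
          rw [if_neg hu, if_neg hv, dist_add_right])
      have h2 := h1 1 ⟨a, ha⟩ w
      have haK : (⟨a, ha⟩ : H.verts) ∈ K := Or.inl rfl
      have hwK : w ∉ K := by
        rintro (h | h)
        · exact hwa (Subtype.ext h)
        · exact hwn h
      rw [if_pos haK, if_neg hwK, add_zero, dist_eq_norm, dist_eq_norm] at h2
      have h3 : toPlane (pos m (x a) t) + ((1 : unitInterval) : ℝ) • e - toPlane (pos m (x w) t)
          = (2 : ℝ) • e := by
        rw [he]
        rw [Set.Icc.coe_one]
        module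
      rw [h3, ← he, norm_smul] at h2
      have h4 : ‖e‖ ≠ 0 := norm_ne_zero_iff.2 he0
      have h5 : ‖(2 : ℝ)‖ = 2 := by norm_num
      rw [h5] at h2
      apply h4
      linarith

end Pool.Agent.H174R2.UD
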