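import Mathlib

set_option autoImplicit false

/-! # Unimodular rational functions with Gaussian integer coefficients -/

namespace Pool.Agent.H174R2.UD

open Polynomial Complex

/-- The polynomial `∏_{j ∈ S} (X - (j + i)) ∏_{j ∉ S} (X - (j - i))`. -/
noncomputable def NP (m : ℕ) (S : Finset (Fin m)) : ℂ[X] :=
  ∏ j : Fin m, (X - C (if j ∈ S then ((j : ℕ) : ℂ) + I else ((j : ℕ) : ℂ) - I))

theorem eval_NP (m : ℕ) (S : Finset (Fin m)) (z : ℂ) :
    (NP m S).eval z =
      ∏ j : Fin m, (z - (if j ∈ S then ((j : ℕ) : ℂ) + I else ((j : ℕ) : ℂ) - I)) := by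
  unfold NP
  rw [eval_prod]
  simp

theorem conj_eval_NP (m : ℕ) (S : Finset (Fin m)) (t : ℝ) :
    (starRingEnd ℂ) ((NP m S).eval (t : ℂ)) = (NP m Sᶜ).eval (t : ℂ) := by
  rw [eval_NP, eval_NP, map_prod]
  refine Finset.prod_congr rfl fun j _ => ?_
  by_cases hj : j ∈ S
  · have hj' : j ∉ Sᶜ := by simp [hj]
    rw [if_pos hj, if_neg hj']
    simp [sub_eq_add_neg]
  · have hj' : j ∈ Sᶜ := by simp [hj]
    rw [if_neg hj, if_pos hj']
    simp

theorem norm_factor (t : ℝ) (j : ℕ) :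
    ‖(t : ℂ) - ((j : ℂ) + I)‖ = ‖(t : ℂ) - ((j : ℂ) - I)‖ := by
  have h : (t : ℂ) - ((j : ℂ) - I) = (starRingEnd ℂ) ((t : ℂ) - ((j : ℂ) + I)) := by
    simp [sub_eq_add_neg]
  rw [h, Complex.norm_conj]

theorem norm_eval_NP (m : ℕ) (S : Finset (Fin m)) (t : ℝ) :
    ‖(NP m S).eval (t : ℂ)‖ = ‖(NP m ∅).eval (t : ℂ)‖ := by
  rw [eval_NP, eval_NP, norm_prod, norm_prod]
  refine Finset.prod_congr rfl fun j _ => ?_
  by_cases hj : j ∈ S
  · rw [if_pos hj, if_neg (Finset.notMem_empty j)]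
    exact norm_factor t j
  · rw [if_neg hj, if_neg (Finset.notMem_empty j)]

theorem eval_NP_ne (m : ℕ) (S : Finset (Fin m)) (t : ℝ) : (NP m S).eval (t : ℂ) ≠ 0 := by
  rw [eval_NP, Finset.prod_ne_zero_iff]
  intro j _ h
  split_ifs at h with hj
  · have := congrArg Complex.im h
    simp at this
  · have := congrArg Complex.im h
    simp at this

theorem eval_pt_eq_zero {m : ℕ} {S : Finset (Fin m)} {i : Fin m} (hi : i ∈ S) :
    (NP m S).eval (((i : ℕ) : ℂ) + I) = 0 := by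
  rw [eval_NP]
  exact Finset.prod_eq_zero (Finset.mem_univ i) (by rw [if_pos hi, sub_self])

theorem eval_pt_ne_zero {m : ℕ} {S : Finset (Fin m)} {i : Fin m} (hi : i ∉ S) :
    (NP m S).eval (((i : ℕ) : ℂ) + I) ≠ 0 := by
  rw [eval_NP, Finset.prod_ne_zero_iff]
  intro j _ h
  split_ifs at h with hj
  · have h1 := congrArg Complex.re h
    simp only [sub_re, add_re, natCast_re, I_re, add_zero, zero_re] at h1
    have h2 : ((i : ℕ) : ℝ) = ((j : ℕ) : ℝ) := by linarith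
    have h3 : i = j := Fin.ext (by exact_mod_cast h2)
    exact hi (by rw [h3]; exact hj)
  · have h1 := congrArg Complex.im h
    simp only [sub_im, add_im, natCast_im, I_im, zero_add, zero_im, zero_sub] at h1
    norm_num at h1

/-- Two different unit vectors have a non-constant angle. -/
theorem finite_const {m : ℕ} {S T : Finset (Fin m)} (hST : S ≠ T) (κ : ℝ) :
    {t : ℝ | ‖(NP m S).eval (t : ℂ) - (NP m T).eval (t : ℂ)‖ ^ 2 =
      κ * ‖(NP m ∅).eval (t : ℂ)‖ ^ 2}.Finite := by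
  set Q : ℂ[X] := (NP m S - NP m T) * (NP m Sᶜ - NP m Tᶜ) - C (κ : ℂ) * (NP m ∅ * NP m ∅ᶜ) with hQ
  have hQ0 : Q ≠ 0 := by
    have hex : ∃ i, (i ∈ S ∧ i ∉ T) ∨ (i ∈ T ∧ i ∉ S) := by
      by_contra hcon
      push Not at hcon
      apply hST
      ext i
      exact ⟨(hcon i).1, (hcon i).2⟩
    obtain ⟨i, hi⟩ := hex
    intro h0
    have h1 : Q.eval (((i : ℕ) : ℂ) + I) = 0 := by rw [h0, eval_zero]
    rw [hQ] at h1
    simp only [eval_sub, eval_mul, eval_C] at h1
    have h2 : (NP m ∅ᶜ).eval (((i : ℕ) : ℂ) + I) = 0 := eval_pt_eq_zero (by simp)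
    rw [h2, mul_zero, mul_zero, sub_zero] at h1
    rcases hi with ⟨hi1, hi2⟩ | ⟨hi1, hi2⟩
    · rw [eval_pt_eq_zero hi1, eval_pt_eq_zero (S := Tᶜ) (i := i) (by simp [hi2]), zero_sub,
        sub_zero] at h1
      rcases mul_eq_zero.1 h1 with h3 | h3
      · exact eval_pt_ne_zero hi2 (neg_eq_zero.1 h3)
      · exact eval_pt_ne_zero (S := Sᶜ) (i := i) (by simp [hi1]) h3
    · rw [eval_pt_eq_zero hi1, eval_pt_eq_zero (S := Sᶜ) (i := i) (by simp [hi2]), zero_sub,
        sub_zero] at h1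
      rcases mul_eq_zero.1 h1 with h3 | h3
      · exact eval_pt_ne_zero hi2 h3
      · exact eval_pt_ne_zero (S := Tᶜ) (i := i) (by simp [hi1]) (neg_eq_zero.1 h3)
  have hfin : {z : ℂ | Q.IsRoot z}.Finite := Polynomial.finite_setOfPred_isRoot hQ0
  refine (hfin.preimage (f := fun t : ℝ => (t : ℂ)) Complex.ofReal_injective.injOn).subset ?_
  intro t ht
  change Q.eval (t : ℂ) = 0
  rw [hQ]
  simp only [eval_sub, eval_mul, eval_C]
  rw [← conj_eval_NP, ← conj_eval_NP, ← conj_eval_NP, ← map_sub, Complex.mul_conj,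
    Complex.mul_conj, Complex.normSq_eq_norm_sq, Complex.normSq_eq_norm_sq]
  have h1 : ‖(NP m S).eval (t : ℂ) - (NP m T).eval (t : ℂ)‖ ^ 2 =
      κ * ‖(NP m ∅).eval (t : ℂ)‖ ^ 2 := ht
  rw [h1]
  push_cast
  ring

/-- All coefficients are Gaussian integers `u + v i` with `|u|, |v| ≤ M`. -/
def GInt (M : ℤ) (f : ℂ[X]) : Prop :=
  ∀ k, ∃ u v : ℤ, f.coeff k = (u : ℂ) + (v : ℂ) * I ∧ |u| ≤ M ∧ |v| ≤ M

theorem GInt.mul {M : ℤ} {f : ℂ[X]} (h : GInt M f) (j : ℕ) (e : ℤ) (he : |e| ≤ 1) :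
    GInt (M * (j + 2)) ((X - C ((j : ℂ) + (e : ℂ) * I)) * f) := by
  intro k
  have hM : 0 ≤ M := by
    obtain ⟨u, v, -, h1, -⟩ := h 0
    exact le_trans (abs_nonneg _) h1
  have hu : ∀ a b c d : ℤ, |a| ≤ M → |b| ≤ M → |c| ≤ M →
      |a - (j : ℤ) * b + e * c| ≤ M * (j + 2) := by
    intro a b c _ ha hb hc
    have h1 : |(j : ℤ) * b| ≤ j * M := by
      rw [abs_mul, abs_of_nonneg (Int.natCast_nonneg j)]
      exact mul_le_mul_of_nonneg_left hb (Int.natCast_nonneg j)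
    have h2 : |e * c| ≤ M := by
      rw [abs_mul]
      calc |e| * |c| ≤ 1 * M := mul_le_mul he hc (abs_nonneg _) zero_le_one
        _ = M := one_mul M
    calc |a - (j : ℤ) * b + e * c| ≤ |a - (j : ℤ) * b| + |e * c| := abs_add_le _ _
      _ ≤ |a| + |(j : ℤ) * b| + |e * c| := by
        have := abs_sub a ((j : ℤ) * b)
        linarith
      _ ≤ M * (j + 2) := by linarith
  have hu' : ∀ a b c : ℤ, |a| ≤ M → |b| ≤ M → |c| ≤ M →
      |a - (j : ℤ) * b - e * c| ≤ M * (j + 2) := by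
    intro a b c ha hb hc
    have := hu a b (-c) 0 ha hb (by rw [abs_neg]; exact hc)
    have h3 : a - (j : ℤ) * b + e * (-c) = a - (j : ℤ) * b - e * c := by ring
    rwa [h3] at this
  rw [sub_mul, coeff_sub, coeff_C_mul]
  cases k with
  | zero =>
    obtain ⟨u, v, h1, h2, h3⟩ := h 0
    refine ⟨0 - j * u + e * v, 0 - j * v - e * u, ?_, hu 0 u v 0 (by simpa using hM) h2 h3,
      hu' 0 v u (by simpa using hM) h3 h2⟩
    rw [coeff_X_mul_zero, h1]
    push_cast
    have : I * I = -1 := Complex.I_mul_I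
    linear_combination (-(e : ℂ) * (v : ℂ)) * this
  | succ k =>
    obtain ⟨u, v, h1, h2, h3⟩ := h (k + 1)
    obtain ⟨u', v', h1', h2', h3'⟩ := h k
    refine ⟨u' - j * u + e * v, v' - j * v - e * u, ?_, hu u' u v 0 h2' h2 h3,
      hu' v' v u h3' h3 h2⟩
    rw [coeff_X_mul, h1, h1']
    push_cast
    have : I * I = -1 := Complex.I_mul_I
    linear_combination (-(e : ℂ) * (v : ℂ)) * this

theorem GInt.mono {M M' : ℤ} {f : ℂ[X]} (h : GInt M f) (hM : M ≤ M') : GInt M' f := by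
  intro k
  obtain ⟨u, v, h1, h2, h3⟩ := h k
  exact ⟨u, v, h1, h2.trans hM, h3.trans hM⟩

theorem gint_one : GInt 1 (1 : ℂ[X]) := by
  intro k
  rw [coeff_one]
  split_ifs
  · exact ⟨1, 0, by simp, by simp, by simp⟩
  · exact ⟨0, 0, by simp, by simp, by simp⟩

theorem gint_NP (m : ℕ) (S : Finset (Fin m)) : GInt (((m + 1) ^ m : ℕ) : ℤ) (NP m S) := by
  have key : ∀ s : Finset (Fin m), GInt (((m + 1) ^ s.card : ℕ) : ℤ)
      (∏ j ∈ s, (X - C (if j ∈ S then ((j : ℕ) : ℂ) + I else ((j : ℕ) : ℂ) - I))) := by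
    intro s
    induction s using Finset.induction_on with
    | empty => simpa using gint_one
    | insert a s ha ih =>
      rw [Finset.prod_insert ha, Finset.card_insert_of_notMem ha]
      have hb : (((m + 1) ^ s.card : ℕ) : ℤ) * (((a : ℕ) : ℤ) + 2) ≤
          (((m + 1) ^ (s.card + 1) : ℕ) : ℤ) := by
        push_cast
        rw [pow_succ]
        refine mul_le_mul_of_nonneg_left ?_ (by positivity)
        have := a.2
        omega
      by_cases haS : a ∈ S
      · rw [if_pos haS]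
        have := (ih.mul (a : ℕ) 1 (by simp)).mono hb
        simpa using this
      · rw [if_neg haS]
        have := (ih.mul (a : ℕ) (-1) (by simp)).mono hb
        have h2 : ((a : ℕ) : ℂ) + ((-1 : ℤ) : ℂ) * I = ((a : ℕ) : ℂ) - I := by push_cast; ring
        rwa [h2] at this
  have := key Finset.univ
  rw [Finset.card_univ, Fintype.card_fin] at this
  exact this

theorem monic_NP (m : ℕ) (S : Finset (Fin m)) : (NP m S).Monic :=
  monic_prod_of_monic _ _ fun _ _ => monic_X_sub_C _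

theorem natDegree_NP (m : ℕ) (S : Finset (Fin m)) : (NP m S).natDegree = m := by
  unfold NP
  rw [natDegree_prod_of_monic _ _ fun _ _ => monic_X_sub_C _]
  simp

theorem NP_injective (m : ℕ) : Function.Injective (NP m) := by
  intro S T h
  by_contra hne
  have h1 := finite_const hne 0
  have h2 : {t : ℝ | ‖(NP m S).eval (t : ℂ) - (NP m T).eval (t : ℂ)‖ ^ 2 =
      0 * ‖(NP m ∅).eval (t : ℂ)‖ ^ 2} = Set.univ := by
    ext t
    simp [h]
  rw [h2] at h1
  exact Set.infinite_univ h1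

end Pool.Agent.H174R2.UD
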